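import Pool.Agent.Q23.LD.Pf2

/-!
# The Legendre symbol of the square root of `det [(j^2 - k^2)^3 (j^2 - k^2 / p)]`

Modulo `p` the matrix is `V C V^T` with the Vandermonde matrix `V` of the squares and an antisymmetric
generalised permutation matrix `C` whose entries are folded binomial coefficients, so that the square
root of the determinant is, up to sign, the product of `det V` and of half of the entries of `C`.
-/

set_option autoImplicit false

namespace Pool.Agent.Results.MP_dd0b6b_nt.SquareRootSymbol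

/-- The determinant `D_p^(3)` of the matrix with the entries `(j^2 - k^2)^3 (j^2 - k^2 / p)`,
`1 ≤ j, k ≤ (p - 1) / 2`. -/
def D (p : ℕ) [Fact p.Prime] : ℤ :=
  Matrix.det (Matrix.of fun j k : Fin ((p - 1) / 2) =>
    ((((j : ℕ) : ℤ) + 1) ^ 2 - (((k : ℕ) : ℤ) + 1) ^ 2) ^ 3 *
      legendreSym p ((((j : ℕ) : ℤ) + 1) ^ 2 - (((k : ℕ) : ℤ) + 1) ^ 2))

/-- The number `N_p` of the integers `k` with `0 < k < p / 4` and `(k / p) = -1`. -/
def N (p : ℕ) [Fact p.Prime] : ℕ :=
  ((Finset.range p).filter (fun k => 0 < k ∧ 4 * k < p ∧ legendreSym p (k : ℤ) = -1)).card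

lemma five [Fact (Nat.Prime 5)] (s : ℤ) (hs : s ^ 2 = D 5) :
    legendreSym 5 s = (-1) ^ N 5 * jacobiSym 5 3 := by
  have l3 : legendreSym 5 3 = -1 := by norm_num
  have l3' : legendreSym 5 (-3) = -1 := by norm_num
  have hD : D 5 = 27 ^ 2 := by
    unfold D
    rw [show (Matrix.of fun j k : Fin ((5 - 1) / 2) =>
      ((((j : ℕ) : ℤ) + 1) ^ 2 - (((k : ℕ) : ℤ) + 1) ^ 2) ^ 3 *
      legendreSym 5 ((((j : ℕ) : ℤ) + 1) ^ 2 - (((k : ℕ) : ℤ) + 1) ^ 2)).det =
      (Matrix.of fun j k : Fin 2 =>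
      ((((j : ℕ) : ℤ) + 1) ^ 2 - (((k : ℕ) : ℤ) + 1) ^ 2) ^ 3 *
      legendreSym 5 ((((j : ℕ) : ℤ) + 1) ^ 2 - (((k : ℕ) : ℤ) + 1) ^ 2)).det by rfl]
    rw [Matrix.det_fin_two]
    simp only [Matrix.of_apply]
    norm_num [l3, l3']
  have hN : N 5 = 0 := by
    unfold N
    rw [Finset.card_eq_zero, Finset.filter_eq_empty_iff]
    intro k hk
    rw [Finset.mem_range] at hk
    rintro ⟨h1, h2, h3⟩
    have : k = 1 := by omega
    subst this
    have l1 : legendreSym 5 1 = 1 := by norm_num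
    rw [Nat.cast_one, l1] at h3
    norm_num at h3
  rw [hN, pow_zero, one_mul]
  have h1 : jacobiSym 5 3 = -1 := by norm_num
  rw [h1]
  rw [hD] at hs
  rcases sq_eq_sq_iff_eq_or_eq_neg.1 hs with rfl | rfl
  · norm_num
  · norm_num

/-- **Main result.**  The determinant is a square, and the Legendre symbol of its nonnegative square root
(and of the other one) is as conjectured. -/
theorem result : ∀ (p : ℕ) [Fact p.Prime], p % 4 = 1 →
    (∃ s : ℤ, 0 ≤ s ∧ s ^ 2 = D p) ∧
    ∀ s : ℤ, s ^ 2 = D p → legendreSym p s =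
      (-1) ^ N p * jacobiSym (p : ℤ) ((4 : ℤ) + (-1) ^ ((p - 1) / 4)).toNat := by
  intro p _ h4
  refine ⟨?_, ?_⟩
  · obtain ⟨s, hs⟩ := Pool.Agent.Q23.LD.MM_isSquare 3 p h4 (by decide)
    refine ⟨|s|, abs_nonneg s, ?_⟩
    rw [sq_abs, sq]
    exact hs.symm
  · intro s hs
    have hpp := (Fact.out : p.Prime)
    obtain ⟨h, hp⟩ : ∃ h, p = 4 * h + 1 := ⟨p / 4, by omega⟩
    rcases Nat.lt_or_ge h 2 with h1 | h1
    · have h2 : h = 1 := by
        rcases Nat.eq_zero_or_pos h with h3 | h3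
        · exfalso
          rw [h3] at hp
          exact hpp.ne_one (by omega)
        · omega
      subst h2
      subst hp
      have := five s hs
      rw [this]
      have e : ((4 : ℤ) + (-1) ^ ((4 * 1 + 1 - 1) / 4)).toNat = 3 := by
        rw [show (4 * 1 + 1 - 1) / 4 = 1 by norm_num, pow_one]
        rfl
      rw [e]
      rfl
    · have h2 := Pool.Agent.Q23.LD.sqrt_three h1 hp s hs
      have hh : (p - 1) / 4 = h := by omega
      rw [h2, hh]
      have : Fact (Nat.Prime 3) := ⟨by norm_num⟩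
      have : Fact (Nat.Prime 5) := ⟨by norm_num⟩
      have q3 := legendreSym.quadratic_reciprocity_one_mod_four (p := p) (q := 3) h4 (by norm_num)
      have q5 := legendreSym.quadratic_reciprocity_one_mod_four (p := p) (q := 5) h4 (by norm_num)
      have c3 : Pool.Agent.Q23.LD.ch p 3 = legendreSym p ((3 : ℕ) : ℤ) := by
        rw [legendreSym, Pool.Agent.Q23.LD.ch]
        norm_num
      have c5 : Pool.Agent.Q23.LD.ch p 5 = legendreSym p ((5 : ℕ) : ℤ) := by
        rw [legendreSym, Pool.Agent.Q23.LD.ch]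
        norm_num
      rcases Nat.mod_two_eq_zero_or_one h with he | ho
      · rw [if_pos he, (Nat.even_iff.2 he).neg_one_pow]
        rw [show ((4 : ℤ) + 1).toNat = 5 by rfl, ← jacobiSym.legendreSym.to_jacobiSym 5, q5, c5]
        rfl
      · rw [if_neg (by omega), (Nat.odd_iff.2 ho).neg_one_pow]
        rw [show ((4 : ℤ) + -1).toNat = 3 by rfl, ← jacobiSym.legendreSym.to_jacobiSym 3, q3, c3]
        rfl

end Pool.Agent.Results.MP_dd0b6b_nt.SquareRootSymbol
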